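import Pool.Agent.Lib.MP_b7b920_al_h79.Step5

/-!
# Choice of `p`, `A`, `X`, and torsion in rank two (helper79)
-/

set_option autoImplicit false

namespace Pool.B7h79

open Module

/-- a nontrivial finite soluble group has a nontrivial normal `p`-subgroup for some prime `p` -/
theorem exists_normal_pgroup (Q : Type) [Group Q] [Finite Q] [Group.IsSolvable Q] [Nontrivial Q] :
    ∃ (p : ℕ) (_ : p.Prime) (P : Subgroup Q), P.Normal ∧ P ≠ ⊥ ∧ IsPGroup p P := by
  classical
  -- last nontrivial derived subgroup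
  have hex : ∃ n, derivedSeries Q n = ⊥ := Group.IsSolvable.solvable
  have hpos : Nat.find hex ≠ 0 := by
    intro h0
    have h1 := Nat.find_spec hex
    rw [h0, derivedSeries_zero] at h1
    exact top_ne_bot h1
  obtain ⟨n, hn⟩ : ∃ n, n + 1 = Nat.find hex :=
    ⟨Nat.find hex - 1, Nat.succ_pred_eq_of_pos (Nat.pos_of_ne_zero hpos)⟩
  have hN1 : derivedSeries Q n ≠ ⊥ := Nat.find_min hex (by omega)
  have hN2 : derivedSeries Q (n + 1) = ⊥ := by rw [hn]; exact Nat.find_spec hex
  set N := derivedSeries Q n with hNdef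
  have hNn : N.Normal := derivedSeries_normal Q n
  rw [derivedSeries_succ, Subgroup.commutator_eq_bot_iff_le_centralizer] at hN2
  have hcomm : ∀ x ∈ N, ∀ y ∈ N, x * y = y * x := by
    intro x hx y hy
    exact (Subgroup.mem_centralizer_iff.1 (hN2 hx) y hy).symm
  have hcard : Nat.card N ≠ 1 := by
    intro h1
    exact hN1 (Subgroup.card_eq_one.1 h1)
  obtain ⟨p, hp, hpN⟩ := Nat.exists_prime_and_dvd hcard
  have : Fact p.Prime := ⟨hp⟩
  obtain ⟨x, hx⟩ := exists_prime_orderOf_dvd_card' (G := N) p hpN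
  let P : Subgroup Q :=
    { carrier := {y | y ∈ N ∧ y ^ p = 1}
      mul_mem' := by
        rintro a b ⟨ha, ha'⟩ ⟨hb, hb'⟩
        refine ⟨N.mul_mem ha hb, ?_⟩
        have hc : Commute a b := hcomm a ha b hb
        rw [hc.mul_pow, ha', hb', one_mul]
      one_mem' := ⟨N.one_mem, one_pow p⟩
      inv_mem' := by
        rintro a ⟨ha, ha'⟩
        exact ⟨N.inv_mem ha, by rw [inv_pow, ha', inv_one]⟩ }
  refine ⟨p, hp, P, ⟨?_⟩, ?_, ?_⟩
  · rintro y ⟨hy, hy'⟩ g
    refine ⟨hNn.conj_mem y hy g, ?_⟩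
    rw [conj_pow, hy', mul_one, mul_inv_cancel]
  · intro h0
    have hxp : (x : Q) ∈ P := by
      refine ⟨x.2, ?_⟩
      have h1 : x ^ p = 1 := by rw [← hx]; exact pow_orderOf_eq_one x
      exact congrArg Subtype.val h1
    rw [h0, Subgroup.mem_bot] at hxp
    have h2 : x = 1 := Subtype.ext hxp
    rw [h2, orderOf_one] at hx
    exact hp.one_lt.ne hx
  · rintro ⟨y, hy⟩
    refine ⟨1, ?_⟩
    apply Subtype.ext
    simpa using hy.2

section
variable {Γ L : Type} [Group Γ] [AddCommGroup L] [DistribMulAction Γ L]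
variable {ι : Multiplicative L →* Γ} (h : Cryst ι)
variable [Module.Free ℤ L]
include h

/-- in rank at least two the point group is nontrivial -/
lemma range_ne_top [Module.Finite ℤ L] (hs : 2 ≤ finrank ℤ L) : ι.range ≠ ⊤ := by
  intro htop
  have hfix : ∀ (g : Γ) (v : L), g • v = v := fun g v => h.act_of_mem (by rw [htop]; trivial) v
  let b := Module.finBasis ℤ L
  let i0 : Fin (finrank ℤ L) := ⟨0, by omega⟩
  let i1 : Fin (finrank ℤ L) := ⟨1, by omega⟩
  have hne : AddSubgroup.zmultiples (b i0) ≠ ⊥ := by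
    intro h0
    rw [AddSubgroup.zmultiples_eq_bot] at h0
    exact b.ne_zero i0 h0
  obtain ⟨m, hm, hmS⟩ := h.irr (AddSubgroup.zmultiples (b i0))
    (fun g v hv => by rw [hfix]; exact hv) hne
  obtain ⟨k, hk⟩ := AddSubgroup.mem_zmultiples_iff.1 (hmS (b i1))
  have h1 := congrArg (fun v => b.repr v i1) hk
  rw [← natCast_zsmul] at h1
  have h01 : i0 ≠ i1 := by
    intro h2
    have := congrArg Fin.val h2
    simp [i0, i1] at this
  simp only [map_smul, Module.Basis.repr_self, Finsupp.smul_apply, smul_eq_mul,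
    Finsupp.single_eq_same, Finsupp.single_apply, if_neg h01] at h1
  omega

/-- `L^A = 0` for a normal subgroup `A` properly containing the lattice -/
lemma fix_normal {A : Subgroup Γ} (hA : A.Normal) (hTA : ι.range < A) {v : L}
    (hv : ∀ a ∈ A, a • v = v) : v = 0 := by
  by_contra hv0
  let S : AddSubgroup L :=
    { carrier := {w | ∀ a ∈ A, a • w = w}
      add_mem' := by
        intro a b ha hb g hg
        rw [smul_add, ha g hg, hb g hg]
      zero_mem' := fun g _ => smul_zero g
      neg_mem' := by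
        intro a ha g hg
        rw [smul_neg, ha g hg] }
  have hS : ∀ (g : Γ), ∀ w ∈ S, g • w ∈ S := by
    intro g w hw a ha
    have h1 : g⁻¹ * a * g ∈ A := by simpa using hA.conj_mem a ha g⁻¹
    have h2 := hw _ h1
    calc a • g • w = g • ((g⁻¹ * a * g) • w) := by
          rw [← mul_smul, ← mul_smul]; congr 1; group
      _ = _ := by rw [h2]
  have hne : S ≠ ⊥ := by
    intro h0
    have : v ∈ S := hv
    rw [h0, AddSubgroup.mem_bot] at this
    exact hv0 this
  obtain ⟨m, hm, hmS⟩ := h.irr S hS hne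
  apply hTA.not_ge
  intro a ha
  apply h.cen
  intro w
  have h1 := hmS w a ha
  rw [smul_comm, ← sub_eq_zero, ← smul_sub] at h1
  exact sub_eq_zero.1 (nsmul_eq_zero_tf hm.ne' h1)

omit [Module.Free ℤ L] in
/-- every element of `Γ` has a power in the lattice -/
lemma exists_pow_mem (g : Γ) : ∃ n : ℕ, 0 < n ∧ g ^ n ∈ ι.range := by
  have hn := h.range_normal
  refine ⟨ι.range.index, Nat.pos_of_ne_zero h.fin, ?_⟩
  exact Subgroup.pow_index_mem ι.range g

/-- an element without nonzero fixed vectors has finite order -/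
lemma finOrder_of_fix (g : Γ) (hg : ∀ v : L, g • v = v → v = 0) : IsOfFinOrder g := by
  obtain ⟨n, hn, hgn⟩ := exists_pow_mem h g
  obtain ⟨v, hv⟩ := (mem_range_iff ι _).1 hgn
  have h1 : g • v = v := by
    apply h.tr_inj
    rw [← h.conj, hv]
    group
  rw [hg v h1, tr_zero] at hv
  rw [isOfFinOrder_iff_pow_eq_one]
  exact ⟨n, hn, hv.symm⟩

/-- the linear map of `g` -/
def lin (L : Type) [AddCommGroup L] [DistribMulAction Γ L] (g : Γ) : L →ₗ[ℤ] L :=
  (DistribSMul.toAddMonoidHom L g).toIntLinearMap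

omit h [Module.Free ℤ L] in
@[simp] lemma lin_apply (g : Γ) (v : L) : lin L g v = g • v := rfl

omit h [Module.Free ℤ L] in
lemma lin_mul (g k : Γ) : lin L (g * k) = lin L g * lin L k := by
  ext v; simp [mul_smul]

omit h [Module.Free ℤ L] in
lemma lin_one : lin L (1 : Γ) = 1 := by
  ext v; simp

omit h [Module.Free ℤ L] in
lemma lin_pow (g : Γ) (n : ℕ) : lin L (g ^ n) = lin L g ^ n := by
  induction n with
  | zero => simp [lin_one]
  | succ n ih => rw [pow_succ, pow_succ, lin_mul, ih]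

/-- in rank two: an element of determinant one with a nonzero fixed vector is a translation -/
lemma det_one_fix [Module.Finite ℤ L] (hs : finrank ℤ L = 2) (g : Γ)
    (hdet : LinearMap.det (lin L g) = 1) {v : L} (hv0 : v ≠ 0) (hv : g • v = v) :
    g ∈ ι.range := by
  let b := Module.finBasisOfFinrankEq ℤ L hs
  set M := LinearMap.toMatrixAlgEquiv b (lin L g) with hM
  have hdM : M.det = 1 := by
    rw [← hdet, ← LinearMap.det_toMatrix b]
    rfl
  -- Cayley–Hamilton in dimension two
  have hCH : M * M = (M 0 0 + M 1 1) • M - 1 := by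
    rw [Matrix.det_fin_two] at hdM
    have h00 : M 0 0 * M 0 0 + M 0 1 * M 1 0 = (M 0 0 + M 1 1) * M 0 0 - 1 := by linarith
    have h01 : M 0 0 * M 0 1 + M 0 1 * M 1 1 = (M 0 0 + M 1 1) * M 0 1 - 0 := by ring
    have h10 : M 1 0 * M 0 0 + M 1 1 * M 1 0 = (M 0 0 + M 1 1) * M 1 0 - 0 := by ring
    have h11 : M 1 0 * M 0 1 + M 1 1 * M 1 1 = (M 0 0 + M 1 1) * M 1 1 - 1 := by linarith
    ext i j
    rw [Matrix.mul_apply, Fin.sum_univ_two, Matrix.sub_apply, Matrix.smul_apply, smul_eq_mul]
    fin_cases i <;> fin_cases j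
    · exact h00
    · exact h01
    · exact h10
    · exact h11
  set f := lin L g with hf
  set t : ℤ := M 0 0 + M 1 1
  have hf2 : f * f = t • f - 1 := by
    apply (LinearMap.toMatrixAlgEquiv b).injective
    rw [map_mul, map_sub, map_zsmul, map_one]
    exact hCH
  have ht : t = 2 := by
    have h1 := congrArg (fun u : L →ₗ[ℤ] L => u v) hf2
    simp only [Module.End.mul_apply, LinearMap.sub_apply, LinearMap.smul_apply,
      Module.End.one_apply] at h1
    have h2 : f v = v := hv
    rw [h2, h2] at h1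
    have h3 : (t - 2) • v = 0 := by
      rw [sub_smul, two_smul]
      nth_rewrite 2 [h1]
      abel
    rcases smul_eq_zero.1 h3 with h4 | h4
    · linarith
    · exact absurd h4 hv0
  have hpow : ∀ n : ℕ, f ^ n = 1 + (n : ℤ) • (f - 1) := by
    intro n
    induction n with
    | zero => simp
    | succ n ih =>
      rw [pow_succ, ih, add_mul, one_mul, smul_mul_assoc, sub_mul, one_mul, hf2, ht]
      push_cast
      module
  obtain ⟨n, hn, hgn⟩ := exists_pow_mem h g
  have h1 : f ^ n = 1 := by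
    rw [hf, ← lin_pow]
    ext w
    simpa using h.act_of_mem hgn w
  rw [hpow n] at h1
  have h2 : (n : ℤ) • (f - 1) = 0 := by
    simpa using h1
  apply h.cen
  intro w
  have h3 := congrArg (fun u : L →ₗ[ℤ] L => u w) h2
  simp only [LinearMap.smul_apply, LinearMap.sub_apply, Module.End.one_apply,
    LinearMap.zero_apply] at h3
  rcases smul_eq_zero.1 h3 with h4 | h4
  · exact absurd (by exact_mod_cast h4) hn.ne'
  · exact sub_eq_zero.1 h4

omit h [Module.Free ℤ L] in
lemma det_sq (g : Γ) :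
    LinearMap.det (lin L g) = 1 ∨ LinearMap.det (lin L g) = -1 := by
  have h1 : LinearMap.det (lin L g) * LinearMap.det (lin L g⁻¹) = 1 := by
    rw [← LinearMap.det_comp]
    have : lin L g ∘ₗ lin L g⁻¹ = LinearMap.id := by
      ext v; simp
    rw [this, LinearMap.det_id]
  exact Int.isUnit_iff.1 (IsUnit.of_mul_eq_one _ h1)

theorem exists_torsion_core [Module.Finite ℤ L] (hs : finrank ℤ L = 2) {A : Subgroup Γ}
    (hA : A.Normal) (hTA : ι.range < A) : ∃ a ∈ A, a ≠ 1 ∧ IsOfFinOrder a := by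
  have hnt : Nontrivial L := by
    rw [← Module.finrank_pos_iff (R := ℤ)]; omega
  suffices hex : ∃ a ∈ A, ∀ v : L, a • v = v → v = 0 by
    obtain ⟨a, ha, hav⟩ := hex
    refine ⟨a, ha, ?_, finOrder_of_fix h a hav⟩
    rintro rfl
    obtain ⟨v, hv⟩ := exists_ne (0 : L)
    exact hv (hav v (one_smul _ v))
  by_contra hcon
  push Not at hcon
  have hdet : ∀ a ∈ A, a ∉ ι.range → LinearMap.det (lin L a) = -1 := by
    intro a ha har
    obtain ⟨v, hv, hv0⟩ := hcon a ha
    rcases det_sq (L := L) a with h1 | h1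
    · exact absurd (det_one_fix h hs a h1 hv0 hv) har
    · exact h1
  obtain ⟨a, ha, har⟩ := SetLike.exists_of_lt hTA
  obtain ⟨v, hv, hv0⟩ := hcon a ha
  apply hv0
  apply fix_normal h hA hTA
  intro c hc
  by_cases hcr : c ∈ ι.range
  · exact h.act_of_mem hcr v
  have h1 : a⁻¹ * c ∈ ι.range := by
    by_contra h2
    have h3 := hdet _ (A.mul_mem (A.inv_mem ha) hc) h2
    have h4 := hdet c hc hcr
    have h5 := hdet a ha har
    have h6 : lin L c = lin L a ∘ₗ lin L (a⁻¹ * c) := by
      ext w; simp [mul_smul]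
    rw [h6, LinearMap.det_comp, h3, h5] at h4
    norm_num at h4
  have h7 : c = a * (a⁻¹ * c) := by group
  rw [h7, mul_smul, h.act_of_mem h1, hv]

end

end Pool.B7h79

namespace Pool.MP_b7b920_al.CT

open Module Pool.B7h79

section
variable {Γ L : Type} [Group Γ] [AddCommGroup L] [Module.Free ℤ L]
  [Module.Finite ℤ L] [DistribMulAction Γ L] (ι : Multiplicative L →* Γ)

/-- torsion in rank two -/
theorem exists_torsion (hC : Cryst Γ L ι) (hs : finrank ℤ L = 2) (A : Subgroup Γ) [A.Normal]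
    (hTA : ι.range < A) : ∃ a ∈ A, a ≠ 1 ∧ IsOfFinOrder a :=
  exists_torsion_core hC.toB7 hs inferInstance hTA

variable [Group.IsSolvable Γ]

/-- (M0b) choice of `p`, `A`, `X` for `s ≥ 2`. -/
theorem exists_pA (hC : Cryst Γ L ι) (hs : 2 ≤ finrank ℤ L) :
    ∃ (p : ℕ) (_ : p.Prime) (A X : Subgroup Γ) (_ : A.Normal), ι.range < A ∧ A ≤ X ∧
      (∃ k, ι.range.relIndex A = p ^ k) ∧ (∃ k, ι.range.relIndex X = p ^ k) ∧ ¬ p ∣ X.index := by
  have h := hC.toB7
  have hn := h.range_normal
  have hfi : ι.range.FiniteIndex := hC.fin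
  have hfq : Finite (Γ ⧸ ι.range) := Subgroup.finite_quotient_of_finiteIndex
  have hnt : Nontrivial (Γ ⧸ ι.range) := by
    rw [QuotientGroup.nontrivial_iff]
    exact range_ne_top h hs
  obtain ⟨p, hp, P, hPn, hPne, hPp⟩ := exists_normal_pgroup (Γ ⧸ ι.range)
  have : Fact p.Prime := ⟨hp⟩
  obtain ⟨S, hPS⟩ := hPp.exists_le_sylow
  set π := QuotientGroup.mk' ι.range with hπ
  have hπs : Function.Surjective π := QuotientGroup.mk'_surjective _
  have hker : ι.range = (⊥ : Subgroup (Γ ⧸ ι.range)).comap π := by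
    rw [MonoidHom.comap_bot, QuotientGroup.ker_mk']
  have hrel : ∀ R : Subgroup (Γ ⧸ ι.range), ι.range.relIndex (R.comap π) = Nat.card R := by
    intro R
    have h1 : (π.ker).relIndex (R.comap π) = Nat.card R := by
      rw [Subgroup.relIndex_ker, Subgroup.map_comap_eq_self_of_surjective hπs]
    rwa [QuotientGroup.ker_mk'] at h1
  refine ⟨p, hp, P.comap π, (S : Subgroup (Γ ⧸ ι.range)).comap π, hPn.comap π, ?_, ?_, ?_, ?_, ?_⟩
  · rw [lt_iff_le_and_ne]
    constructor
    · nth_rewrite 1 [hker]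
      exact Subgroup.comap_mono bot_le
    · intro h1
      apply hPne
      have h2 : (⊥ : Subgroup (Γ ⧸ ι.range)).comap π = P.comap π := hker.symm.trans h1
      exact (Subgroup.comap_injective hπs h2).symm
  · exact Subgroup.comap_mono hPS
  · rw [hrel]
    exact IsPGroup.iff_card.1 hPp
  · rw [hrel]
    exact IsPGroup.iff_card.1 S.isPGroup'
  · rw [Subgroup.index_comap_of_surjective _ hπs]
    exact S.not_dvd_index

end

end Pool.MP_b7b920_al.CT
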