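import Pool.Agent.Lib.MP_b7b920_al_h79.Step5
import Pool.Agent.Lib.MP_b7b920_al_h55.GenBy

/-!
# The one-dimensional case (helper79)
-/

set_option autoImplicit false

namespace Pool.MP_b7b920_al.CT

open Module Pool.B7h79 Pool.MP_b7b920_al

section
variable {Γ L : Type} [Group Γ] [AddCommGroup L] [Module.Free ℤ L]
  [Module.Finite ℤ L] [DistribMulAction Γ L] (ι : Multiplicative L →* Γ)

/-- (M0a) the one-dimensional case -/
theorem ct_one (hC : Cryst Γ L ι) (hs : finrank ℤ L = 1) : GenBy 1 Γ := by
  have h := hC.toB7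
  let b := Module.finBasisOfFinrankEq ℤ L hs
  set e := b 0 with he
  have hgen : ∀ v : L, ∃ n : ℤ, v = n • e := by
    intro v
    refine ⟨b.repr v 0, ?_⟩
    have := b.sum_repr v
    simpa using this.symm
  have he0 : e ≠ 0 := b.ne_zero 0
  have hzs : ∀ n : ℤ, n • e = 0 → n = 0 := by
    intro n hn
    rcases smul_eq_zero.1 hn with h3 | h3
    · exact h3
    · exact absurd h3 he0
  -- every element acts by a sign
  have hsign : ∀ g : Γ, g • e = e ∨ g • e = -e := by
    intro g
    obtain ⟨n, hn⟩ := hgen (g • e)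
    obtain ⟨m, hm⟩ := hgen (g⁻¹ • e)
    have h1 : e = (m * n) • e := by
      calc e = g⁻¹ • (g • e) := (inv_smul_smul g e).symm
        _ = _ := by rw [hn, smul_comm, hm, ← mul_smul, mul_comm]
    have h2 : m * n = 1 := by
      have h4 : (m * n - 1) • e = 0 := by rw [sub_smul, one_smul, ← h1, sub_self]
      have := hzs _ h4
      linarith
    rcases Int.isUnit_iff.1 (IsUnit.of_mul_eq_one _ ((mul_comm n m).trans h2)) with h3 | h3
    · left; rw [hn, h3, one_smul]
    · right; rw [hn, h3, neg_smul, one_smul]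
  have hrange : ∀ g : Γ, g ∈ ι.range → ∀ Y : Subgroup Γ, tr ι e ∈ Y → g ∈ Y := by
    intro g hg Y hY
    obtain ⟨v, rfl⟩ := (mem_range_iff ι g).1 hg
    obtain ⟨n, rfl⟩ := hgen v
    rw [tr_zsmul]
    exact Y.zpow_mem hY n
  by_cases hall : ∀ g : Γ, g • e = e
  · refine ⟨⊥, inferInstance, fun _ => tr ι e, ?_⟩
    rw [eq_top_iff]
    intro g _
    refine hrange g (h.cen g fun v => ?_) _ (Subgroup.subset_closure (Or.inr ⟨0, rfl⟩))
    obtain ⟨n, rfl⟩ := hgen v
    rw [smul_comm, hall]
  · push Not at hall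
    obtain ⟨z, hz⟩ := hall
    have hz' : z • e = -e := (hsign z).resolve_left hz
    have hz2 : z * z ∈ ι.range := by
      apply h.cen
      intro v
      obtain ⟨n, rfl⟩ := hgen v
      rw [smul_comm, mul_smul, hz', smul_neg, hz', neg_neg]
    obtain ⟨v, hv⟩ := (mem_range_iff ι _).1 hz2
    obtain ⟨n, rfl⟩ := hgen v
    have h1 : z • (n • e) = n • e := by
      apply h.tr_inj
      rw [← h.conj, hv]; group
    have h2 : (2 * n) • e = 0 := by
      rw [smul_comm, hz', smul_neg] at h1
      rw [mul_comm, mul_smul, two_smul, smul_add]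
      nth_rewrite 1 [← h1]
      abel
    have h3 : n = 0 := by
      have := hzs _ h2
      omega
    have h4 : z * z = 1 := by rw [← hv, h3]; simp
    have hfin : IsOfFinOrder z := by
      rw [isOfFinOrder_iff_pow_eq_one]
      exact ⟨2, by norm_num, by rw [pow_two, h4]⟩
    refine ⟨Subgroup.zpowers z, ?_, fun _ => tr ι e, ?_⟩
    · exact hfin.finite_zpowers
    · rw [eq_top_iff]
      intro g _
      set Y := Subgroup.closure ((Subgroup.zpowers z : Set Γ) ∪ Set.range fun _ : Fin 1 => tr ι e)
      have hzY : z ∈ Y := Subgroup.subset_closure (Or.inl (Subgroup.mem_zpowers z))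
      have htY : tr ι e ∈ Y := Subgroup.subset_closure (Or.inr ⟨0, rfl⟩)
      rcases hsign g with hg | hg
      · refine hrange g (h.cen g fun v => ?_) _ htY
        obtain ⟨n, rfl⟩ := hgen v
        rw [smul_comm, hg]
      · have : g * z ∈ Y := by
          refine hrange _ (h.cen _ fun v => ?_) _ htY
          obtain ⟨n, rfl⟩ := hgen v
          rw [smul_comm, mul_smul, hz', smul_neg, hg, neg_neg]
        have h5 : g = g * z * z := by rw [mul_assoc, h4, mul_one]
        rw [h5]
        exact Y.mul_mem this hzY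

end

end Pool.MP_b7b920_al.CT
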