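import Pool.Agent.Lib.MP_b7b920_al_h79.Good2
import Pool.Agent.Lib.MP_b7b920_al_CT.Defs

/-!
# Step 5: the global step (helper79, after helper6)
-/

set_option autoImplicit false

namespace Pool.B7h79

open Module

section
variable {Γ L : Type} [Group Γ] [AddCommGroup L] [DistribMulAction Γ L]
variable {ι : Multiplicative L →* Γ} (h : Cryst ι)
variable [Module.Free ℤ L]
include h

omit h [DistribMulAction Γ L] in
lemma nsmul_eq_zero_tf {n : ℕ} {v : L} (hn : n ≠ 0) (hv : n • v = 0) : v = 0 := by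
  rw [← natCast_zsmul] at hv
  rcases smul_eq_zero.1 hv with h3 | h3
  · exact absurd (by exact_mod_cast h3) hn
  · exact h3

/-- a translation of finite order is trivial -/
lemma tr_finOrder {v : L} {n : ℕ} (hn : n ≠ 0) (hv : (tr ι v) ^ n = 1) : v = 0 := by
  rw [← tr_nsmul] at hv
  exact nsmul_eq_zero_tf hn (h.tr_eq_one hv)

lemma exists_moved (E : Subgroup Γ) [Finite E] (hE : E ≠ ⊥) : ∃ e ∈ E, ∃ v : L, e • v ≠ v := by
  by_contra hcon
  push Not at hcon
  obtain h0 | ⟨e, he, he1⟩ := E.bot_or_exists_ne_one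
  · exact hE h0
  obtain ⟨v, rfl⟩ := (mem_range_iff ι e).1 (h.cen e (hcon e he))
  apply he1
  have h1 : (⟨tr ι v, he⟩ : E) ^ Nat.card E = 1 := pow_card_eq_one'
  have h2 : (tr ι v) ^ Nat.card E = 1 := congrArg Subtype.val h1
  rw [tr_finOrder h Nat.card_pos.ne' h2, tr_zero]

variable [Module.Finite ℤ L]

/-- a nontrivial finite subgroup has a fixed lattice of smaller rank -/
lemma fix_rank (E : Subgroup Γ) [Finite E] (hE : E ≠ ⊥) :
    finrank ℤ (fixS L E) < finrank ℤ L := by
  obtain ⟨e, he, v, hv⟩ := exists_moved h E hE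
  have htf : Module.IsTorsionFree ℤ (L ⧸ fixS L E) := by
    apply Module.IsTorsionFree.of_smul_eq_zero
    intro r m hm
    obtain ⟨w, rfl⟩ := Submodule.Quotient.mk_surjective _ m
    by_cases hr : r = 0
    · exact Or.inl hr
    right
    rw [← Submodule.Quotient.mk_smul, Submodule.Quotient.mk_eq_zero] at hm
    rw [Submodule.Quotient.mk_eq_zero]
    intro g hg
    have h1 := hm g hg
    rw [smul_comm, ← sub_eq_zero, ← smul_sub] at h1
    rcases smul_eq_zero.1 h1 with h3 | h3
    · exact absurd h3 hr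
    · exact sub_eq_zero.1 h3
  have hnt : Nontrivial (L ⧸ fixS L E) := by
    refine ⟨Submodule.Quotient.mk v, 0, ?_⟩
    intro h0
    rw [Submodule.Quotient.mk_eq_zero] at h0
    exact hv (h0 e he)
  have h1 := Submodule.finrank_quotient_add_finrank (fixS L E)
  have h2 : 0 < finrank ℤ (L ⧸ fixS L E) := Module.finrank_pos_iff.2 hnt
  omega

omit h [DistribMulAction Γ L] [Module.Finite ℤ L] in
lemma not_cov_bot [Nontrivial L] {p : ℕ} (hp : p.Prime) : ¬ Cov (⊥ : AddSubgroup L) p := by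
  intro hc
  let b := Module.Free.chooseBasis ℤ L
  have hne : Nonempty (Module.Free.ChooseBasisIndex ℤ L) := b.index_nonempty
  obtain ⟨i⟩ := hne
  obtain ⟨d, hd, w, hw⟩ := hc (b i)
  rw [AddSubgroup.mem_bot] at hd
  rw [hd, zero_add, ← natCast_zsmul] at hw
  have h1 := congrArg (fun v => b.repr v i) hw
  simp only [Module.Basis.repr_self, Finsupp.single_eq_same, map_smul, Finsupp.smul_apply,
    smul_eq_mul] at h1
  have h2 : (p : ℤ) ∣ 1 := ⟨_, h1⟩
  have h3 : p ∣ 1 := by exact_mod_cast h2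
  exact hp.one_lt.ne' (Nat.dvd_one.1 h3)

/-- the global step -/
theorem step5_core {n : ℕ} (hn : finrank ℤ L = n) (hs : 2 ≤ n) {p : ℕ} (hp : p.Prime)
    (E : Subgroup Γ) [Finite E] (hE : n = 2 → E ≠ ⊥) (x : Fin n → Γ)
    (hx : gens ι E x 0 ⊔ lay ι p = ⊤)
    (hq : ∀ q : ℕ, q.Prime → q ≠ p → ∃ t : Fin n → L, gens ι E x t ⊔ lay ι q = ⊤) :
    ∃ t : Fin n → L, gens ι E x t = ⊤ := by
  classical
  have hnt : Nontrivial L := by
    rw [← Module.finrank_pos_iff (R := ℤ)]; omega
  have htop : gens ι E x 0 ⊔ ι.range = ⊤ := sup_range_of_sup_lay hx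
  have hcp : Cov (trSub ι (gens ι E x 0)) p := (h.cov_iff htop p).2 hx
  have hne : trSub ι (gens ι E x 0) ≠ ⊥ := by
    intro h0
    rw [h0] at hcp
    exact not_cov_bot hp hcp
  obtain ⟨m0, hm0, hD0⟩ := h.trSub_fin htop hne
  obtain ⟨m, hm, hpm, hD⟩ := hcp.exists_coprime hp hm0.ne' hD0
  -- local solutions
  have hT : ∀ q : ℕ, ∃ t : Fin n → L, (q.Prime → q ≠ p → gens ι E x t ⊔ lay ι q = ⊤) ∧
      (q = p → t = 0) := by
    intro q
    by_cases h1 : q.Prime ∧ q ≠ p
    · obtain ⟨t, ht⟩ := hq q h1.1 h1.2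
      exact ⟨t, fun _ _ => ht, fun h2 => absurd h2 h1.2⟩
    · refine ⟨0, fun h2 h3 => absurd ⟨h2, h3⟩ h1, fun _ => rfl⟩
  choose T hT1 hT2 using hT
  obtain ⟨t0, ht0⟩ := crt (insert p m.primeFactors) (by
    intro q hq
    rcases Finset.mem_insert.1 hq with rfl | hq
    · exact hp
    · exact (Nat.mem_primeFactors.1 hq).1) T
  have hrank : finrank ℤ L + finrank ℤ (fixS L E) < n * finrank ℤ L := by
    have h3 : finrank ℤ (fixS L E) ≤ finrank ℤ L := Submodule.finrank_le _
    by_cases h2 : n = 2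
    · have h4 := fix_rank h E (hE h2)
      rw [hn] at h3 h4 ⊢
      nlinarith
    · have h5 : 3 ≤ n := by omega
      rw [hn] at h3 ⊢
      nlinarith
  have hN : p * m ≠ 0 := mul_ne_zero hp.ne_zero hm
  obtain ⟨t, ht, htne⟩ := exists_good h htop (Nat.pos_of_ne_zero hm) hD hrank hN t0
  obtain ⟨M, hM, hdiag⟩ := diag_mem h (Nat.pos_of_ne_zero hm) hD (gens_range_top t htop) htne
  obtain ⟨c, hc⟩ := crt (M := ℤ) (m.primeFactors ∪ M.primeFactors) (by
    intro q hq
    rcases Finset.mem_union.1 hq with hq | hq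
    · exact (Nat.mem_primeFactors.1 hq).1
    · exact (Nat.mem_primeFactors.1 hq).1) (fun q => if q ∣ m then 1 else 0)
  refine ⟨c • t, ?_⟩
  have hctop : gens ι E x (c • t) ⊔ ι.range = ⊤ := gens_range_top _ htop
  have hMD : ∀ v : L, M • v ∈ trSub ι (gens ι E x (c • t)) := by
    intro v
    obtain ⟨w, hw, hw'⟩ := pairs_spec h c (hdiag v)
    simp only at hw hw'
    have h1 : w = 0 := by
      apply h.tr_eq_one
      exact mul_left_cancel (hw.symm.trans (mul_one _).symm)
    rw [h1, smul_zero, tr_zero, mul_one] at hw'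
    exact hw'
  have hall : ∀ v : L, v ∈ trSub ι (gens ι E x (c • t)) := by
    apply Cov.eq_top hM.ne' hMD
    intro q hq' hqM
    rw [h.cov_iff hctop]
    by_cases hqp : q = p
    · subst hqp
      apply gens_congr_top (t := 0) (t' := c • t) _ hx
      intro i
      obtain ⟨w1, hw1⟩ := ht i
      obtain ⟨w2, hw2⟩ := ht0 q (Finset.mem_insert_self _ _)
      rw [hT2 q rfl, zero_add] at hw2
      refine ⟨-(c • (w2 i + m • w1)), ?_⟩
      rw [Pi.smul_apply, hw1, hw2]
      simp only [Pi.zero_apply, Pi.smul_apply, smul_neg]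
      rw [smul_comm q c, ← smul_neg, ← smul_add]
      rw [smul_add q, ← mul_smul q m]
      simp
    by_cases hqm : q ∣ m
    · have h1 := hT1 q hq' hqp
      apply gens_congr_top (t := T q) (t' := c • t) _ h1
      intro i
      obtain ⟨w1, hw1⟩ := ht i
      have hqmem : q ∈ m.primeFactors := Nat.mem_primeFactors.2 ⟨hq', hqm, hm⟩
      obtain ⟨w2, hw2⟩ := ht0 q (Finset.mem_insert_of_mem hqmem)
      obtain ⟨w3, hw3⟩ := hc q (Finset.mem_union_left _ hqmem)
      rw [if_pos hqm] at hw3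
      obtain ⟨m', rfl⟩ := hqm
      have e1 : t i = T q i + q • (w2 i + (p * m') • w1) := by
        rw [hw1, hw2, Pi.add_apply, Pi.smul_apply, smul_add, ← mul_smul, add_assoc]
        congr 3
        ring
      refine ⟨-((w2 i + (p * m') • w1) + w3 • t i), ?_⟩
      rw [Pi.smul_apply, hw3, add_smul, one_smul]
      have e2 : (q • w3) • t i = q • (w3 • t i) := by
        rw [nsmul_eq_mul, mul_smul, natCast_zsmul]
      rw [e2, smul_neg, smul_add q]
      nth_rewrite 1 [e1]
      abel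
    · apply gens_congr_top (t := 0) (t' := c • t)
      · intro i
        have hqmem : q ∈ M.primeFactors := Nat.mem_primeFactors.2 ⟨hq', hqM, hM.ne'⟩
        obtain ⟨w3, hw3⟩ := hc q (Finset.mem_union_right _ hqmem)
        rw [if_neg hqm, zero_add] at hw3
        refine ⟨-(w3 • t i), ?_⟩
        rw [Pi.smul_apply, hw3, nsmul_eq_mul, mul_smul, natCast_zsmul]
        simp
      · rw [← h.cov_iff htop]
        intro v
        have hcop : Nat.Coprime m q := (Nat.Coprime.symm ((Nat.Prime.coprime_iff_not_dvd hq').2 hqm))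
        obtain ⟨a, b, hab⟩ := Nat.isCoprime_iff_coprime.2 hcop
        refine ⟨m • (a • v), hD _, b • v, ?_⟩
        rw [← natCast_zsmul, ← natCast_zsmul, ← mul_smul, ← mul_smul, ← add_smul]
        have : (m : ℤ) * a + q * b = 1 := by linarith
        rw [this, one_smul]
  rw [eq_top_iff, ← hctop]
  refine sup_le le_rfl ?_
  intro g hg
  obtain ⟨v, rfl⟩ := (mem_range_iff ι g).1 hg
  exact hall v

end

end Pool.B7h79

namespace Pool.MP_b7b920_al.CT

open Module Pool.B7h79

/-- conversion of the interface structure -/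
theorem Cryst.toB7 {Γ L : Type} [Group Γ] [AddCommGroup L] [DistribMulAction Γ L]
    {ι : Multiplicative L →* Γ} (hC : Cryst Γ L ι) : Pool.B7h79.Cryst ι where
  inj := hC.inj
  conj := hC.conj
  fin := hC.fin.index_ne_zero
  cen := hC.self
  irr := by
    intro S hS hne
    have hfi := hC.irr S hS hne
    exact ⟨S.index, Nat.pos_of_ne_zero hfi.index_ne_zero, fun v => S.nsmul_index_mem v⟩

theorem closure_union_mulSet {Γ L : Type} [Group Γ] [AddCommGroup L] (ι : Multiplicative L →* Γ)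
    (S : Set Γ) (q : ℕ) :
    Subgroup.closure (S ∪ mulSet ι q) = Subgroup.closure S ⊔ lay ι q := by
  rw [Subgroup.closure_union]
  congr 1
  apply le_antisymm
  · rw [Subgroup.closure_le]
    rintro _ ⟨v, rfl⟩
    exact ⟨v, rfl⟩
  · rintro _ ⟨v, rfl⟩
    exact Subgroup.subset_closure ⟨v, rfl⟩

section
variable {Γ L : Type} [Group Γ] [AddCommGroup L] [Module.Free ℤ L]
  [Module.Finite ℤ L] [DistribMulAction Γ L] (ι : Multiplicative L →* Γ)

/-- (M7, Step 5, the global step; no solubility needed) -/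
theorem step5 (hC : Cryst Γ L ι) (hs : 2 ≤ finrank ℤ L) (p : ℕ) (hp : p.Prime)
    (E : Subgroup Γ) [Finite E] (hE : finrank ℤ L = 2 → E ≠ ⊥)
    (x : Fin (finrank ℤ L) → Γ)
    (hx : Subgroup.closure ((E : Set Γ) ∪ Set.range x ∪ mulSet ι p) = ⊤)
    (hq : ∀ q : ℕ, q.Prime → q ≠ p → ∃ t : Fin (finrank ℤ L) → L,
      Subgroup.closure ((E : Set Γ) ∪ Set.range (fun i => x i * ι (Multiplicative.ofAdd (t i))) ∪
        mulSet ι q) = ⊤) :
    ∃ t : Fin (finrank ℤ L) → L,
      Subgroup.closure ((E : Set Γ) ∪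
        Set.range (fun i => x i * ι (Multiplicative.ofAdd (t i)))) = ⊤ := by
  rw [closure_union_mulSet, ← gens_zero (ι := ι)] at hx
  simp only [closure_union_mulSet] at hq
  exact step5_core hC.toB7 rfl hs hp E hE x hx hq

end

end Pool.MP_b7b920_al.CT
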