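import Mathlib

/-!
# Basic API for crystallographic data `ι : Multiplicative L →* Γ` (helper79)
-/

set_option autoImplicit false

namespace Pool.B7h79

variable {Γ L : Type} [Group Γ] [AddCommGroup L]

/-- the element of `Γ` given by a lattice vector -/
def tr (ι : Multiplicative L →* Γ) (v : L) : Γ := ι (Multiplicative.ofAdd v)

section tr
variable (ι : Multiplicative L →* Γ)

@[simp] lemma tr_zero : tr ι 0 = 1 := by simp [tr]

lemma tr_add (a b : L) : tr ι (a + b) = tr ι a * tr ι b := by simp [tr, ofAdd_add]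

@[simp] lemma tr_neg (a : L) : tr ι (-a) = (tr ι a)⁻¹ := by simp [tr, ofAdd_neg]

lemma tr_sub (a b : L) : tr ι (a - b) = tr ι a * (tr ι b)⁻¹ := by
  rw [sub_eq_add_neg, tr_add, tr_neg]

lemma tr_nsmul (n : ℕ) (a : L) : tr ι (n • a) = (tr ι a) ^ n := by
  simp [tr, ofAdd_nsmul]

lemma tr_zsmul (n : ℤ) (a : L) : tr ι (n • a) = (tr ι a) ^ n := by
  simp [tr, ofAdd_zsmul]

lemma tr_mem_range (a : L) : tr ι a ∈ ι.range := ⟨_, rfl⟩

lemma mem_range_iff (g : Γ) : g ∈ ι.range ↔ ∃ v : L, tr ι v = g := by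
  constructor
  · rintro ⟨v, rfl⟩
    exact ⟨Multiplicative.toAdd v, by simp [tr]⟩
  · rintro ⟨v, rfl⟩
    exact tr_mem_range ι v

lemma tr_comm (a b : L) : tr ι a * tr ι b = tr ι b * tr ι a := by
  rw [← tr_add, add_comm, tr_add]

end tr

/-- crystallographic data: `L` embeds as a self-centralising normal subgroup of finite index on
which `Γ` acts rationally irreducibly -/
structure Cryst [DistribMulAction Γ L] (ι : Multiplicative L →* Γ) : Prop where
  inj : Function.Injective ι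
  conj : ∀ (g : Γ) (v : L), g * tr ι v * g⁻¹ = tr ι (g • v)
  fin : ι.range.index ≠ 0
  cen : ∀ g : Γ, (∀ v : L, g • v = v) → g ∈ ι.range
  irr : ∀ S : AddSubgroup L, (∀ (g : Γ), ∀ v ∈ S, g • v ∈ S) → S ≠ ⊥ →
    ∃ m : ℕ, 0 < m ∧ ∀ v : L, m • v ∈ S

namespace Cryst
variable [DistribMulAction Γ L] {ι : Multiplicative L →* Γ} (h : Cryst ι)
include h

lemma tr_inj {a b : L} (hab : tr ι a = tr ι b) : a = b := by
  have := h.inj hab
  simpa using this

lemma tr_eq_one {a : L} (ha : tr ι a = 1) : a = 0 := by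
  apply h.tr_inj
  rw [ha, tr_zero]

lemma act_tr (a v : L) : tr ι a • v = v := by
  apply h.tr_inj
  rw [← h.conj, tr_comm, mul_inv_cancel_right]

lemma act_of_mem {g : Γ} (hg : g ∈ ι.range) (v : L) : g • v = v := by
  obtain ⟨a, rfl⟩ := (mem_range_iff ι g).1 hg
  exact h.act_tr a v

lemma mul_tr (g : Γ) (v : L) : g * tr ι v = tr ι (g • v) * g := by
  rw [← h.conj]; group

lemma tr_mul (g : Γ) (v : L) : tr ι v * g = g * tr ι (g⁻¹ • v) := by
  rw [h.mul_tr, smul_inv_smul]

lemma act_mul_tr (g : Γ) (a v : L) : (g * tr ι a) • v = g • v := by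
  rw [mul_smul, h.act_tr]

lemma range_normal : ι.range.Normal := by
  constructor
  intro n hn g
  obtain ⟨v, rfl⟩ := (mem_range_iff ι n).1 hn
  rw [h.conj]
  exact tr_mem_range ι _

end Cryst

end Pool.B7h79
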