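import Pool.Agent.Lib.MP_b7b920_al_h79.Pair

/-!
# Existence of a good modification (helper79, after helper6)
-/

set_option autoImplicit false

namespace Pool.B7h79

variable {Γ L : Type} [Group Γ] [AddCommGroup L] [DistribMulAction Γ L]

/-- right derivations `Ψ → L` vanishing on `E` -/
def RDer (L : Type) [AddCommGroup L] [DistribMulAction Γ L] (E Ψ : Subgroup Γ) :
    AddSubgroup (Ψ → L) where
  carrier := {f | (∀ g k : Ψ, f (g * k) = (k : Γ)⁻¹ • f g + f k) ∧ ∀ e : Ψ, (e : Γ) ∈ E → f e = 0}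
  add_mem' := by
    rintro a b ⟨ha, ha'⟩ ⟨hb, hb'⟩
    refine ⟨fun g k => ?_, fun e he => ?_⟩
    · simp only [Pi.add_apply, ha g k, hb g k, smul_add]; abel
    · simp [ha' e he, hb' e he]
  zero_mem' := ⟨fun g k => by simp, fun e _ => rfl⟩
  neg_mem' := by
    rintro a ⟨ha, ha'⟩
    refine ⟨fun g k => ?_, fun e he => ?_⟩
    · simp only [Pi.neg_apply, ha g k, smul_neg]; abel
    · simp [ha' e he]

/-- fixed vectors of `E` -/
def fixS (L : Type) [AddCommGroup L] [DistribMulAction Γ L] (E : Subgroup Γ) : Submodule ℤ L where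
  carrier := {v | ∀ e ∈ E, e • v = v}
  add_mem' := by
    intro a b ha hb e he
    rw [smul_add, ha e he, hb e he]
  zero_mem' := fun e _ => smul_zero e
  smul_mem' := by
    intro c v hv e he
    rw [smul_comm, hv e he]

lemma mem_fixS {E : Subgroup Γ} {v : L} : v ∈ fixS L E ↔ ∀ e ∈ E, e • v = v := Iff.rfl

namespace RDer
variable {E Ψ : Subgroup Γ} {f : Ψ → L} (hf : f ∈ RDer L E Ψ)
include hf

lemma mul (g k : Ψ) : f (g * k) = (k : Γ)⁻¹ • f g + f k := hf.1 g k

lemma one : f 1 = 0 := by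
  have := hf.1 1 1
  simpa using this

lemma inv (g : Ψ) : f g⁻¹ = -((g : Γ) • f g) := by
  have := hf.1 g g⁻¹
  rw [mul_inv_cancel, one hf] at this
  simp only [InvMemClass.coe_inv, inv_inv] at this
  rw [eq_neg_iff_add_eq_zero, add_comm, ← this]

end RDer

variable {ι : Multiplicative L →* Γ} (h : Cryst ι)

section
variable {n : ℕ} {E : Subgroup Γ} {x : Fin n → Γ} {t : Fin n → L}
include h

/-- a bad modification gives a right derivation -/
lemma exists_rder_of_bad (hbad : snd0 ι E x t = ⊥) :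
    ∃ f ∈ RDer L E (gens ι E x 0), ∀ (i : Fin n) (hi : x i ∈ gens ι E x 0), f ⟨x i, hi⟩ = t i := by
  have huniq : ∀ (g : Γ) (v w : L), (g, g * tr ι v) ∈ pairs ι E x t →
      (g, g * tr ι w) ∈ pairs ι E x t → v = w := by
    intro g v w h1 h2
    have h3 := Subgroup.mul_mem _ (Subgroup.inv_mem _ h1) h2
    have h4 : w - v ∈ snd0 ι E x t := by
      rw [mem_snd0]
      convert h3 using 1
      simp only [Prod.inv_mk, Prod.mk_mul_mk, inv_mul_cancel, mul_inv_rev, Prod.mk.injEq, true_and]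
      rw [sub_eq_neg_add, tr_add, tr_neg]
      group
    rw [hbad, AddSubgroup.mem_bot, sub_eq_zero] at h4
    exact h4.symm
  have hex : ∀ g : gens ι E x 0, ∃ v : L, ((g : Γ), (g : Γ) * tr ι v) ∈ pairs ι E x t := by
    rintro ⟨g, hg⟩
    obtain ⟨k, hk⟩ := exists_pairs_fst (t := t) hg
    obtain ⟨v, hv, -⟩ := pairs_spec h 0 hk
    simp only at hv
    subst hv
    exact ⟨v, hk⟩
  choose f hf using hex
  refine ⟨f, ⟨fun g k => ?_, fun e he => ?_⟩, fun i hi => ?_⟩
  · apply huniq _ _ _ (hf (g * k))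
    have h3 := Subgroup.mul_mem _ (hf g) (hf k)
    convert h3 using 1
    rw [Prod.mk_mul_mk]
    congr 1
    rw [tr_add, Subgroup.coe_mul]
    have : tr ι (f g) * (k : Γ) = k * tr ι ((k : Γ)⁻¹ • f g) := h.tr_mul _ _
    calc (g : Γ) * k * (tr ι ((k : Γ)⁻¹ • f g) * tr ι (f k))
        = g * (k * tr ι ((k : Γ)⁻¹ • f g)) * tr ι (f k) := by group
      _ = _ := by rw [← this]; group
  · apply huniq _ _ _ (hf e)
    rw [tr_zero, mul_one]
    exact pairs_diag he
  · apply huniq _ _ _ (hf ⟨x i, hi⟩)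
    exact pairs_gen i

omit h in
/-- a right derivation on `gens` is determined by the values at the `x i` -/
lemma rder_ext {f : gens ι E x 0 → L} (hf : f ∈ RDer L E (gens ι E x 0))
    (h0 : ∀ (i : Fin n) (hi : x i ∈ gens ι E x 0), f ⟨x i, hi⟩ = 0) : f = 0 := by
  have key : ∀ (g : Γ) (hg : g ∈ gens ι E x 0), f ⟨g, hg⟩ = 0 := by
    intro g hg
    have hg' : g ∈ Subgroup.closure ((E : Set Γ) ∪ Set.range (fun i => x i * tr ι ((0 : Fin n → L) i))) := hg
    induction hg' using Subgroup.closure_induction with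
    | mem g hg2 =>
      rcases hg2 with hg2 | ⟨i, rfl⟩
      · exact hf.2 _ hg2
      · have h2 := h0 i (by simpa using gen_mem (ι := ι) (E := E) (x := x) 0 i)
        convert h2 using 2
        simp
    | one => exact RDer.one hf
    | mul a b ha hb iha ihb =>
      have := RDer.mul hf ⟨a, ha⟩ ⟨b, hb⟩
      rw [iha, ihb, smul_zero, add_zero] at this
      exact this
    | inv a ha iha =>
      have := RDer.inv hf ⟨a, ha⟩
      rw [iha, smul_zero, neg_zero] at this
      exact this
  funext g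
  exact key g.1 g.2

end

end Pool.B7h79
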