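import Pool.Agent.Lib.MP_b7b920_al_h79.Good

/-!
# Existence of a good modification: the rank count (helper79, after helper6)
-/

set_option autoImplicit false

namespace Pool.B7h79

open Module

variable {Γ L : Type} [Group Γ] [AddCommGroup L] [DistribMulAction Γ L]
variable {ι : Multiplicative L →* Γ} (h : Cryst ι)

section
variable {Ψ E : Subgroup Γ} {f : Ψ → L} (hf : f ∈ RDer L E Ψ)
include h hf

/-- conjugation formula on translations -/
lemma rder_conj {g : Ψ} {a : L} (ha : tr ι a ∈ Ψ) (hga : tr ι ((g : Γ) • a) ∈ Ψ) :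
    f ⟨tr ι ((g : Γ) • a), hga⟩ = (g : Γ) • f ⟨tr ι a, ha⟩ := by
  have e1 : (⟨tr ι ((g : Γ) • a), hga⟩ : Ψ) = g * (⟨tr ι a, ha⟩ * g⁻¹) := by
    apply Subtype.ext
    simp only [Subgroup.coe_mul, InvMemClass.coe_inv]
    rw [← h.conj]; group
  rw [e1, RDer.mul hf, RDer.mul hf, RDer.inv hf]
  simp only [Subgroup.coe_mul, InvMemClass.coe_inv, mul_inv_rev, inv_inv, mul_smul]
  rw [← tr_neg, h.act_tr]
  abel

lemma rder_add {a b : L} (ha : tr ι a ∈ Ψ) (hb : tr ι b ∈ Ψ) (hab : tr ι (a + b) ∈ Ψ) :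
    f ⟨tr ι (a + b), hab⟩ = f ⟨tr ι a, ha⟩ + f ⟨tr ι b, hb⟩ := by
  have e1 : (⟨tr ι (a + b), hab⟩ : Ψ) = ⟨tr ι a, ha⟩ * ⟨tr ι b, hb⟩ := by
    apply Subtype.ext
    simp [tr_add]
  rw [e1, RDer.mul hf]
  simp only
  rw [← tr_neg, h.act_tr]

/-- if `f` kills one nonzero translation then it kills all translations -/
lemma rder_tr [Module.IsTorsionFree ℤ L] (hΨ : Ψ ⊔ ι.range = ⊤) {u : L} (hu0 : u ≠ 0)
    (hu : tr ι u ∈ Ψ) (hfu : f ⟨tr ι u, hu⟩ = 0) {a : L} (ha : tr ι a ∈ Ψ) :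
    f ⟨tr ι a, ha⟩ = 0 := by
  have hn := h.range_normal
  let Z : AddSubgroup L :=
    { carrier := {v | ∃ hv : tr ι v ∈ Ψ, f ⟨tr ι v, hv⟩ = 0}
      add_mem' := by
        rintro a b ⟨ha, ha'⟩ ⟨hb, hb'⟩
        have hab : tr ι (a + b) ∈ Ψ := by rw [tr_add]; exact Ψ.mul_mem ha hb
        exact ⟨hab, by rw [rder_add h hf ha hb hab, ha', hb', add_zero]⟩
      zero_mem' := by
        have h0 : tr ι 0 ∈ Ψ := by rw [tr_zero]; exact Ψ.one_mem
        refine ⟨h0, ?_⟩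
        have : (⟨tr ι 0, h0⟩ : Ψ) = 1 := Subtype.ext (by simp)
        rw [this, RDer.one hf]
      neg_mem' := by
        rintro a ⟨ha, ha'⟩
        have hna : tr ι (-a) ∈ Ψ := by rw [tr_neg]; exact Ψ.inv_mem ha
        refine ⟨hna, ?_⟩
        have : (⟨tr ι (-a), hna⟩ : Ψ) = ⟨tr ι a, ha⟩⁻¹ := Subtype.ext (by simp)
        rw [this, RDer.inv hf, ha', smul_zero, neg_zero] }
  have hZ : ∀ (g : Γ), ∀ v ∈ Z, g • v ∈ Z := by
    rintro g v ⟨hv, hv'⟩
    have hg : g ∈ Ψ ⊔ ι.range := by rw [hΨ]; trivial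
    obtain ⟨y, hy, z, hz, rfl⟩ := Subgroup.mem_sup_of_normal_right.1 hg
    rw [mul_smul, h.act_of_mem hz]
    have h1 : tr ι (y • v) ∈ Ψ := by
      rw [← h.conj]; exact Ψ.mul_mem (Ψ.mul_mem hy hv) (Ψ.inv_mem hy)
    refine ⟨h1, ?_⟩
    rw [rder_conj h hf (g := ⟨y, hy⟩) hv h1, hv', smul_zero]
  have hne : Z ≠ ⊥ := by
    intro h0
    have : u ∈ Z := ⟨hu, hfu⟩
    rw [h0, AddSubgroup.mem_bot] at this
    exact hu0 this
  obtain ⟨m, hm, hmZ⟩ := h.irr Z hZ hne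
  obtain ⟨h1, h2⟩ := hmZ a
  have key : ∀ k : ℕ, ∀ hk : tr ι (k • a) ∈ Ψ, f ⟨tr ι (k • a), hk⟩ = k • f ⟨tr ι a, ha⟩ := by
    intro k
    induction k with
    | zero =>
      intro hk
      have : (⟨tr ι (0 • a), hk⟩ : Ψ) = 1 := Subtype.ext (by simp)
      rw [this, RDer.one hf, zero_smul]
    | succ k ih =>
      intro hk
      have hk' : tr ι (k • a) ∈ Ψ := by rw [tr_nsmul]; exact Ψ.pow_mem ha k
      have hk2 : tr ι (k • a + a) ∈ Ψ := by rw [← succ_nsmul]; exact hk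
      have e1 : (⟨tr ι ((k + 1) • a), hk⟩ : Ψ) = ⟨tr ι (k • a + a), hk2⟩ :=
        Subtype.ext (congrArg (tr ι) (succ_nsmul a k))
      rw [e1, rder_add h hf hk' ha hk2, ih hk', succ_nsmul]
  rw [key m h1, ← natCast_zsmul] at h2
  rcases smul_eq_zero.1 h2 with h3 | h3
  · exact absurd (by exact_mod_cast h3) hm.ne'
  · exact h3

/-- the sum over coset representatives -/
lemma rder_sum (hf0 : ∀ (a : L) (ha : tr ι a ∈ Ψ), f ⟨tr ι a, ha⟩ = 0)
    [Fintype (Γ ⧸ ι.range)] (r : Γ ⧸ ι.range → Ψ) (hr : ∀ φ, ((r φ : Γ) : Γ ⧸ ι.range) = φ)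
    (k : Ψ) :
    ∑ φ, f (r φ) = (k : Γ)⁻¹ • ∑ φ, f (r φ) + Fintype.card (Γ ⧸ ι.range) • f k := by
  have hn := h.range_normal
  have hcos : ∀ g g' : Ψ, ((g : Γ) : Γ ⧸ ι.range) = (g' : Γ) → f g = f g' := by
    intro g g' hgg
    have h1 : (g : Γ)⁻¹ * g' ∈ ι.range := QuotientGroup.eq.1 hgg
    obtain ⟨a, ha⟩ := (mem_range_iff ι _).1 h1
    have ha' : tr ι a ∈ Ψ := by rw [ha]; exact Ψ.mul_mem (Ψ.inv_mem g.2) g'.2
    have h2 : g' = g * ⟨tr ι a, ha'⟩ := by
      apply Subtype.ext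
      simp only [Subgroup.coe_mul]
      rw [ha, mul_inv_cancel_left]
    rw [h2, RDer.mul hf, hf0 a ha', add_zero]
    simp only
    rw [← tr_neg, h.act_tr]
  have h3 : ∀ φ, f (r (φ * ((k : Γ) : Γ ⧸ ι.range))) = (k : Γ)⁻¹ • f (r φ) + f k := by
    intro φ
    rw [← RDer.mul hf]
    apply hcos
    rw [hr, Subgroup.coe_mul, QuotientGroup.mk_mul, hr]
  calc ∑ φ, f (r φ) = ∑ φ, f (r (φ * ((k : Γ) : Γ ⧸ ι.range))) :=
        (Equiv.sum_comp (Equiv.mulRight ((k : Γ) : Γ ⧸ ι.range)) (fun φ => f (r φ))).symm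
    _ = ∑ φ, ((k : Γ)⁻¹ • f (r φ) + f k) := Finset.sum_congr rfl fun φ _ => h3 φ
    _ = _ := by
      rw [Finset.sum_add_distrib, ← Finset.smul_sum, Finset.sum_const, Finset.card_univ]

end

section
variable {n : ℕ} {E : Subgroup Γ} {x : Fin n → Γ}
include h

/-- the rank count -/
theorem exists_good [Module.Free ℤ L] [Module.Finite ℤ L] [Finite E] [Nontrivial L]
    (htop : gens ι E x 0 ⊔ ι.range = ⊤) {m : ℕ} (hm : 0 < m)
    (hD : ∀ v : L, m • v ∈ trSub ι (gens ι E x 0))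
    (hrank : finrank ℤ L + finrank ℤ (fixS L E) < n * finrank ℤ L)
    {N : ℕ} (hN : N ≠ 0) (t0 : Fin n → L) :
    ∃ t : Fin n → L, (∀ i, ∃ w, t i = t0 i + N • w) ∧ snd0 ι E x t ≠ ⊥ := by
  classical
  by_contra hcon
  push Not at hcon
  set Ψ := gens ι E x 0 with hΨ
  have hx : ∀ i, x i ∈ Ψ := fun i => by simpa using gen_mem (ι := ι) (E := E) (x := x) 0 i
  -- evaluation map
  let ev : RDer L E Ψ →+ (Fin n → L) :=
    { toFun := fun f i => f.1 ⟨x i, hx i⟩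
      map_zero' := rfl
      map_add' := fun f g => rfl }
  have hev : Function.Injective ev := by
    rw [injective_iff_map_eq_zero]
    intro f hf
    apply Subtype.ext
    apply rder_ext f.2
    intro i hi
    exact congrFun hf i
  have hsurj : ∀ w : Fin n → L, ∃ f : RDer L E Ψ, ev f = N • w := by
    intro w
    obtain ⟨f1, hf1, hf1'⟩ := exists_rder_of_bad h (hcon t0 fun i => ⟨0, by simp⟩)
    obtain ⟨f2, hf2, hf2'⟩ := exists_rder_of_bad h (hcon (t0 + N • w) fun i => ⟨w i, rfl⟩)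
    refine ⟨⟨f2, hf2⟩ - ⟨f1, hf1⟩, ?_⟩
    funext i
    show f2 ⟨x i, hx i⟩ - f1 ⟨x i, hx i⟩ = _
    rw [hf1' i (hx i), hf2' i (hx i)]
    simp
  choose F hF using hsurj
  let Fh : (Fin n → L) →+ RDer L E Ψ :=
    { toFun := F
      map_zero' := hev (by rw [hF, smul_zero, map_zero])
      map_add' := fun a b => hev (by rw [map_add, hF, hF, hF, smul_add]) }
  have hFinj : Function.Injective Fh := by
    rw [injective_iff_map_eq_zero]
    intro w hw
    have h1 : ev (F w) = 0 := by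
      have : F w = 0 := hw
      rw [this, map_zero]
    rw [hF] at h1
    have h2 : (N : ℤ) • w = 0 := by rw [natCast_zsmul]; exact h1
    rcases smul_eq_zero.1 h2 with h3 | h3
    · exact absurd (by exact_mod_cast h3) hN
    · exact h3
  -- the map to `L × L^E`
  obtain ⟨v0, hv0⟩ := exists_ne (0 : L)
  have hu0 : m • v0 ≠ 0 := by
    intro h0
    rw [← natCast_zsmul] at h0
    rcases smul_eq_zero.1 h0 with h3 | h3
    · exact absurd (by exact_mod_cast h3) hm.ne'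
    · exact hv0 h3
  have hu : tr ι (m • v0) ∈ Ψ := hD v0
  have hfi : ι.range.FiniteIndex := ⟨h.fin⟩
  have hfq : Finite (Γ ⧸ ι.range) := Subgroup.finite_quotient_of_finiteIndex
  let _ := Fintype.ofFinite (Γ ⧸ ι.range)
  let _ := Fintype.ofFinite E
  have hn := h.range_normal
  have hrep : ∀ φ : Γ ⧸ ι.range, ∃ r : Ψ, ((r : Γ) : Γ ⧸ ι.range) = φ := by
    intro φ
    obtain ⟨g, rfl⟩ := QuotientGroup.mk_surjective φ
    have hg : g ∈ Ψ ⊔ ι.range := by rw [htop]; trivial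
    obtain ⟨y, hy, z, hz, rfl⟩ := Subgroup.mem_sup_of_normal_right.1 hg
    refine ⟨⟨y, hy⟩, ?_⟩
    rw [QuotientGroup.eq, inv_mul_cancel_left]
    exact hz
  choose r hr using hrep
  have hfixsum : ∀ w : L, ∑ e : E, (e : Γ) • w ∈ fixS L E := by
    intro w e he
    rw [Finset.smul_sum]
    calc ∑ e' : E, e • (e' : Γ) • w = ∑ e' : E, ((⟨e, he⟩ * e' : E) : Γ) • w := by
          refine Finset.sum_congr rfl fun e' _ => ?_
          rw [Subgroup.coe_mul, mul_smul]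
      _ = _ := Equiv.sum_comp (Equiv.mulLeft (⟨e, he⟩ : E)) (fun e' : E => (e' : Γ) • w)
  let Θ : RDer L E Ψ →+ L × fixS L E :=
    { toFun := fun f => (f.1 ⟨tr ι (m • v0), hu⟩,
        ⟨∑ e : E, (e : Γ) • ∑ φ, f.1 (r φ), hfixsum _⟩)
      map_zero' := by
        refine Prod.ext rfl (Subtype.ext ?_)
        simp
      map_add' := by
        intro f g
        refine Prod.ext rfl (Subtype.ext ?_)
        show ∑ e : E, (e : Γ) • ∑ φ, (f.1 (r φ) + g.1 (r φ)) = _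
        simp only [Finset.sum_add_distrib, smul_add]
        rfl }
  have hΘ : Function.Injective Θ := by
    rw [injective_iff_map_eq_zero]
    rintro ⟨f, hf⟩ hf0
    have h1 : f ⟨tr ι (m • v0), hu⟩ = 0 := congrArg Prod.fst hf0
    have h2 : ∑ e : E, (e : Γ) • ∑ φ, f (r φ) = 0 := congrArg Subtype.val (congrArg Prod.snd hf0)
    have h3 : ∀ (a : L) (ha : tr ι a ∈ Ψ), f ⟨tr ι a, ha⟩ = 0 := fun a ha =>
      rder_tr h hf htop hu0 hu h1 ha
    have h4 := rder_sum h hf h3 r hr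
    have h5 : ∀ e : E, (e : Γ) • ∑ φ, f (r φ) = ∑ φ, f (r φ) := by
      intro e
      have he : ((e : Γ)⁻¹) ∈ Ψ := Ψ.inv_mem (le_gens 0 e.2)
      have h6 := h4 ⟨(e : Γ)⁻¹, he⟩
      have h7 : f ⟨(e : Γ)⁻¹, he⟩ = 0 := hf.2 _ (E.inv_mem e.2)
      rw [h7, smul_zero, add_zero] at h6
      simp only [inv_inv] at h6
      exact h6.symm
    simp only [h5, Finset.sum_const, Finset.card_univ] at h2
    have h6 : ∑ φ, f (r φ) = 0 := by
      rw [← natCast_zsmul] at h2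
      rcases smul_eq_zero.1 h2 with h3 | h3
      · exact absurd (by exact_mod_cast h3) (Fintype.card_ne_zero (α := E))
      · exact h3
    apply Subtype.ext
    funext k
    have h7 := h4 k
    rw [h6, smul_zero, zero_add] at h7
    rw [← natCast_zsmul] at h7
    rcases smul_eq_zero.1 h7.symm with h3 | h3
    · exact absurd (by exact_mod_cast h3) (Fintype.card_ne_zero (α := Γ ⧸ ι.range))
    · exact h3
  have hcomp : Function.Injective ((Θ.comp Fh).toIntLinearMap) := by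
    intro a b hab
    exact hFinj (hΘ hab)
  have h8 := LinearMap.finrank_le_finrank_of_injective hcomp
  rw [Module.finrank_prod, Module.finrank_pi_fintype] at h8
  simp only [Finset.sum_const, Finset.card_univ, Fintype.card_fin, smul_eq_mul] at h8
  omega

end

end Pool.B7h79
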