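import Pool.Agent.Lib.MP_b7b920_al_h79.Basic

/-!
# Layers, covers and the Chinese remainder argument (helper79)
-/

set_option autoImplicit false

namespace Pool.B7h79

variable {Γ L : Type} [Group Γ] [AddCommGroup L]

/-- `D + qL = L` -/
def Cov (D : AddSubgroup L) (q : ℕ) : Prop := ∀ v : L, ∃ d ∈ D, ∃ w : L, v = d + q • w

lemma Cov.mul {D : AddSubgroup L} {a b : ℕ} (ha : Cov D a) (hb : Cov D b) : Cov D (a * b) := by
  intro v
  obtain ⟨d, hd, w, rfl⟩ := ha v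
  obtain ⟨d', hd', w', rfl⟩ := hb w
  refine ⟨d + a • d', D.add_mem hd (D.nsmul_mem hd' a), w', ?_⟩
  rw [smul_add, add_assoc, mul_smul]

lemma Cov.one {D : AddSubgroup L} : Cov D 1 := fun v => ⟨0, D.zero_mem, v, by simp⟩

lemma Cov.pow {D : AddSubgroup L} {a : ℕ} (ha : Cov D a) (k : ℕ) : Cov D (a ^ k) := by
  induction k with
  | zero => simpa using Cov.one
  | succ k ih => rw [pow_succ]; exact ih.mul ha

lemma Cov.of_primes {D : AddSubgroup L} : ∀ m : ℕ, m ≠ 0 → (∀ q : ℕ, q.Prime → q ∣ m → Cov D q) →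
    Cov D m := by
  intro m
  induction m using induction_on_primes with
  | zero => intro h; exact absurd rfl h
  | one => intro _ _; exact Cov.one
  | prime_mul p a hp ih =>
    intro hm H
    have ha : a ≠ 0 := by rintro rfl; simp at hm
    exact (H p hp (dvd_mul_right _ _)).mul (ih ha fun q hq hqa => H q hq (hqa.mul_left p))

lemma Cov.eq_top {D : AddSubgroup L} {m : ℕ} (hm : m ≠ 0) (hD : ∀ v : L, m • v ∈ D)
    (H : ∀ q : ℕ, q.Prime → q ∣ m → Cov D q) (v : L) : v ∈ D := by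
  obtain ⟨d, hd, w, rfl⟩ := Cov.of_primes m hm H v
  exact D.add_mem hd (hD w)

/-- the prime-to-`p` part of the exponent already works when `D + pL = L` -/
lemma Cov.exists_coprime {D : AddSubgroup L} {m p : ℕ} (hp : p.Prime) (hm : m ≠ 0)
    (hD : ∀ v : L, m • v ∈ D) (hc : Cov D p) : ∃ m' : ℕ, m' ≠ 0 ∧ ¬ p ∣ m' ∧ ∀ v : L, m' • v ∈ D := by
  obtain ⟨e, m', hpm', rfl⟩ := Nat.exists_eq_pow_mul_and_not_dvd hm p hp.ne_one
  refine ⟨m', by rintro rfl; simp at hm, hpm', fun v => ?_⟩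
  obtain ⟨d, hd, w, rfl⟩ := hc.pow e v
  rw [smul_add]
  refine D.add_mem (D.nsmul_mem hd _) ?_
  rw [← mul_smul, mul_comm]
  exact hD w

/-- vector valued Chinese remainder -/
theorem crt {M : Type} [AddCommGroup M] (Q : Finset ℕ) (hQ : ∀ q ∈ Q, q.Prime) (t : ℕ → M) :
    ∃ t0 : M, ∀ q ∈ Q, ∃ w : M, t0 = t q + q • w := by
  classical
  induction Q using Finset.induction_on with
  | empty => exact ⟨0, by simp⟩
  | insert q Q hq ih =>
    obtain ⟨t0, h0⟩ := ih fun r hr => hQ r (Finset.mem_insert_of_mem hr)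
    have hqp : q.Prime := hQ q (Finset.mem_insert_self _ _)
    set P : ℕ := ∏ r ∈ Q, r with hP
    have hcop : Nat.Coprime P q := by
      rw [hP]
      apply Nat.Coprime.prod_left
      intro r hr
      rw [Nat.coprime_primes (hQ r (Finset.mem_insert_of_mem hr)) hqp]
      rintro rfl
      exact hq hr
    obtain ⟨a, b, hab⟩ := (Nat.isCoprime_iff_coprime.2 hcop)
    refine ⟨t0 + (a * P) • (t q - t0), ?_⟩
    intro r hr
    rcases Finset.mem_insert.1 hr with rfl | hr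
    · refine ⟨(-b) • (t r - t0), ?_⟩
      have h1 : (a * (P : ℤ)) = 1 - b * r := by linarith
      rw [h1, ← natCast_zsmul, ← mul_smul, sub_smul, one_smul]
      have : (r : ℤ) * -b = -(b * r) := by ring
      rw [this, neg_smul]
      abel
    · obtain ⟨w, hw⟩ := h0 r hr
      obtain ⟨c, hc⟩ : r ∣ P := Finset.dvd_prod_of_mem _ hr
      refine ⟨w + (a * c) • (t q - t0), ?_⟩
      have h1 : (a * (P : ℤ)) = (r : ℤ) * (a * c) := by rw [hc]; push_cast; ring
      rw [h1, mul_smul]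
      rw [smul_add, ← add_assoc, ← hw, natCast_zsmul]

/-- the subgroup of pure translations contained in `Y` -/
def trSub (ι : Multiplicative L →* Γ) (Y : Subgroup Γ) : AddSubgroup L where
  carrier := {v | tr ι v ∈ Y}
  add_mem' := by
    intro a b ha hb
    show tr ι (a + b) ∈ Y
    rw [tr_add]; exact Y.mul_mem ha hb
  zero_mem' := by
    show tr ι 0 ∈ Y
    rw [tr_zero]; exact Y.one_mem
  neg_mem' := by
    intro a ha
    show tr ι (-a) ∈ Y
    rw [tr_neg]; exact Y.inv_mem ha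

@[simp] lemma mem_trSub {ι : Multiplicative L →* Γ} {Y : Subgroup Γ} {v : L} :
    v ∈ trSub ι Y ↔ tr ι v ∈ Y := Iff.rfl

/-- the subgroup `ι(qL)` -/
def lay (ι : Multiplicative L →* Γ) (q : ℕ) : Subgroup Γ where
  carrier := {g | ∃ w : L, tr ι (q • w) = g}
  mul_mem' := by
    rintro _ _ ⟨a, rfl⟩ ⟨b, rfl⟩
    exact ⟨a + b, by rw [smul_add, tr_add]⟩
  one_mem' := ⟨0, by simp⟩
  inv_mem' := by
    rintro _ ⟨a, rfl⟩
    exact ⟨-a, by rw [smul_neg, tr_neg]⟩

lemma mem_lay {ι : Multiplicative L →* Γ} {q : ℕ} {g : Γ} :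
    g ∈ lay ι q ↔ ∃ w : L, tr ι (q • w) = g := Iff.rfl

lemma lay_le (ι : Multiplicative L →* Γ) (q : ℕ) : lay ι q ≤ ι.range := by
  rintro _ ⟨w, rfl⟩
  exact tr_mem_range _ _

namespace Cryst
variable [DistribMulAction Γ L] {ι : Multiplicative L →* Γ} (h : Cryst ι)
include h

lemma lay_normal (q : ℕ) : (lay ι q).Normal := by
  constructor
  rintro _ ⟨w, rfl⟩ g
  refine ⟨g • w, ?_⟩
  rw [h.conj, smul_comm]

lemma trSub_stable {Y : Subgroup Γ} (hY : Y ⊔ ι.range = ⊤) (g : Γ) (v : L) (hv : v ∈ trSub ι Y) :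
    g • v ∈ trSub ι Y := by
  have hn := h.range_normal
  have hg : g ∈ Y ⊔ ι.range := by rw [hY]; trivial
  obtain ⟨y, hy, z, hz, rfl⟩ := Subgroup.mem_sup_of_normal_right.1 hg
  rw [mem_trSub, mul_smul, h.act_of_mem hz, ← h.conj]
  exact Y.mul_mem (Y.mul_mem hy hv) (Y.inv_mem hy)

lemma trSub_fin {Y : Subgroup Γ} (hY : Y ⊔ ι.range = ⊤) (hne : trSub ι Y ≠ ⊥) :
    ∃ m : ℕ, 0 < m ∧ ∀ v : L, m • v ∈ trSub ι Y :=
  h.irr _ (fun g v hv => h.trSub_stable hY g v hv) hne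

lemma cov_iff {Y : Subgroup Γ} (hY : Y ⊔ ι.range = ⊤) (q : ℕ) :
    Cov (trSub ι Y) q ↔ Y ⊔ lay ι q = ⊤ := by
  have hn := h.range_normal
  have hl := h.lay_normal q
  constructor
  · intro hc
    rw [eq_top_iff]
    intro g _
    have hg : g ∈ Y ⊔ ι.range := by rw [hY]; trivial
    obtain ⟨y, hy, z, hz, rfl⟩ := Subgroup.mem_sup_of_normal_right.1 hg
    obtain ⟨v, rfl⟩ := (mem_range_iff ι z).1 hz
    obtain ⟨d, hd, w, rfl⟩ := hc v
    rw [tr_add, ← mul_assoc]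
    exact (Y ⊔ lay ι q).mul_mem (Subgroup.mem_sup_left (Y.mul_mem hy hd))
      (Subgroup.mem_sup_right ⟨w, rfl⟩)
  · intro ht v
    have hg : tr ι v ∈ Y ⊔ lay ι q := by rw [ht]; trivial
    obtain ⟨y, hy, z, ⟨w, rfl⟩, hz⟩ := Subgroup.mem_sup_of_normal_right.1 hg
    refine ⟨v - q • w, ?_, w, by abel⟩
    rw [mem_trSub, tr_sub, ← hz, mul_inv_cancel_right]
    exact hy

end Cryst

lemma sup_range_of_sup_lay {ι : Multiplicative L →* Γ} {Y : Subgroup Γ} {q : ℕ}
    (hY : Y ⊔ lay ι q = ⊤) : Y ⊔ ι.range = ⊤ := by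
  rw [eq_top_iff, ← hY]
  exact sup_le_sup_left (lay_le ι q) _

/-- the subgroup generated by `E` and the elements `x i * tr (t i)` -/
def gens {n : ℕ} (ι : Multiplicative L →* Γ) (E : Subgroup Γ) (x : Fin n → Γ) (t : Fin n → L) :
    Subgroup Γ :=
  Subgroup.closure ((E : Set Γ) ∪ Set.range (fun i => x i * tr ι (t i)))

section gens
variable {n : ℕ} {ι : Multiplicative L →* Γ} {E : Subgroup Γ} {x : Fin n → Γ}

lemma le_gens (t : Fin n → L) : E ≤ gens ι E x t := by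
  intro e he
  exact Subgroup.subset_closure (Or.inl he)

lemma gen_mem (t : Fin n → L) (i : Fin n) : x i * tr ι (t i) ∈ gens ι E x t :=
  Subgroup.subset_closure (Or.inr ⟨i, rfl⟩)

lemma gens_le {t : Fin n → L} {Y : Subgroup Γ} (h1 : E ≤ Y) (h2 : ∀ i, x i * tr ι (t i) ∈ Y) :
    gens ι E x t ≤ Y := by
  rw [gens, Subgroup.closure_le]
  rintro g (hg | ⟨i, rfl⟩)
  · exact h1 hg
  · exact h2 i

lemma gens_zero : gens ι E x 0 = Subgroup.closure ((E : Set Γ) ∪ Set.range x) := by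
  simp [gens]

lemma gens_congr {t t' : Fin n → L} {q : ℕ} (htt : ∀ i, ∃ w, t i = t' i + q • w) :
    gens ι E x t ⊔ lay ι q ≤ gens ι E x t' ⊔ lay ι q := by
  refine sup_le (gens_le ((le_gens t').trans le_sup_left) ?_) le_sup_right
  intro i
  obtain ⟨w, hw⟩ := htt i
  rw [hw, tr_add, ← mul_assoc]
  exact Subgroup.mul_mem _ (Subgroup.mem_sup_left (gen_mem t' i)) (Subgroup.mem_sup_right ⟨w, rfl⟩)

lemma gens_congr_top {t t' : Fin n → L} {q : ℕ} (htt : ∀ i, ∃ w, t i = t' i + q • w)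
    (ht : gens ι E x t ⊔ lay ι q = ⊤) : gens ι E x t' ⊔ lay ι q = ⊤ := by
  rw [eq_top_iff, ← ht]
  exact gens_congr htt

lemma gens_range_le {t t' : Fin n → L} : gens ι E x t ⊔ ι.range ≤ gens ι E x t' ⊔ ι.range := by
  refine sup_le (gens_le ((le_gens t').trans le_sup_left) ?_) le_sup_right
  intro i
  have : x i * tr ι (t i) = (x i * tr ι (t' i)) * tr ι (t i - t' i) := by
    rw [mul_assoc, ← tr_add]; congr 2; abel
  rw [this]
  exact Subgroup.mul_mem _ (Subgroup.mem_sup_left (gen_mem t' i))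
    (Subgroup.mem_sup_right (tr_mem_range _ _))

lemma gens_range_top {t : Fin n → L} (t' : Fin n → L) (ht : gens ι E x t ⊔ ι.range = ⊤) :
    gens ι E x t' ⊔ ι.range = ⊤ := by
  rw [eq_top_iff, ← ht]
  exact gens_range_le

end gens

end Pool.B7h79
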