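import Pool.Agent.Lib.MP_b7b920_al_h79.Lattice

/-!
# The pair group and the interpolation homomorphism (helper79, after helper6)
-/

set_option autoImplicit false

namespace Pool.B7h79

variable {Γ L : Type} [Group Γ] [AddCommGroup L]

/-- the subgroup of `Γ × Γ` generated by `(e, e)` and `(x i, x i * tr (t i))` -/
def pairs {n : ℕ} (ι : Multiplicative L →* Γ) (E : Subgroup Γ) (x : Fin n → Γ) (t : Fin n → L) :
    Subgroup (Γ × Γ) :=
  Subgroup.closure ({z : Γ × Γ | ∃ e ∈ E, z = (e, e)} ∪ Set.range (fun i => (x i, x i * tr ι (t i))))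

section
variable {n : ℕ} {ι : Multiplicative L →* Γ} {E : Subgroup Γ} {x : Fin n → Γ} {t : Fin n → L}

lemma pairs_diag {e : Γ} (he : e ∈ E) : (e, e) ∈ pairs ι E x t :=
  Subgroup.subset_closure (Or.inl ⟨e, he, rfl⟩)

lemma pairs_gen (i : Fin n) : (x i, x i * tr ι (t i)) ∈ pairs ι E x t :=
  Subgroup.subset_closure (Or.inr ⟨i, rfl⟩)

lemma pairs_fst {z : Γ × Γ} (hz : z ∈ pairs ι E x t) : z.1 ∈ gens ι E x 0 := by
  have : pairs ι E x t ≤ (gens ι E x 0).comap (MonoidHom.fst Γ Γ) := by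
    rw [pairs, Subgroup.closure_le]
    rintro _ (⟨e, he, rfl⟩ | ⟨i, rfl⟩)
    · exact le_gens 0 he
    · have := gen_mem (ι := ι) (E := E) (x := x) 0 i
      simpa using this
  exact this hz

lemma pairs_snd {z : Γ × Γ} (hz : z ∈ pairs ι E x t) : z.2 ∈ gens ι E x t := by
  have : pairs ι E x t ≤ (gens ι E x t).comap (MonoidHom.snd Γ Γ) := by
    rw [pairs, Subgroup.closure_le]
    rintro _ (⟨e, he, rfl⟩ | ⟨i, rfl⟩)
    · exact le_gens t he
    · exact gen_mem t i
  exact this hz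

lemma exists_pairs_fst {g : Γ} (hg : g ∈ gens ι E x 0) : ∃ k, (g, k) ∈ pairs ι E x t := by
  have : gens ι E x 0 ≤ (pairs ι E x t).map (MonoidHom.fst Γ Γ) := by
    apply gens_le
    · intro e he
      exact ⟨(e, e), pairs_diag he, rfl⟩
    · intro i
      refine ⟨_, pairs_gen i, ?_⟩
      simp
  obtain ⟨⟨a, b⟩, hab, rfl⟩ := this hg
  exact ⟨b, hab⟩

lemma exists_pairs_snd {g : Γ} (hg : g ∈ gens ι E x t) : ∃ k, (k, g) ∈ pairs ι E x t := by
  have : gens ι E x t ≤ (pairs ι E x t).map (MonoidHom.snd Γ Γ) := by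
    apply gens_le
    · intro e he
      exact ⟨(e, e), pairs_diag he, rfl⟩
    · intro i
      exact ⟨_, pairs_gen i, rfl⟩
  obtain ⟨⟨a, b⟩, hab, rfl⟩ := this hg
  exact ⟨a, hab⟩

end

variable [DistribMulAction Γ L] {ι : Multiplicative L →* Γ} (h : Cryst ι)

section
variable {n : ℕ} {E : Subgroup Γ} {x : Fin n → Γ} {t : Fin n → L}
include h

/-- every pair differs by a translation, and the interpolated element lies in `gens (c • t)` -/
lemma pairs_spec (c : ℤ) {z : Γ × Γ} (hz : z ∈ pairs ι E x t) :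
    ∃ v : L, z.2 = z.1 * tr ι v ∧ z.1 * tr ι (c • v) ∈ gens ι E x (c • t) := by
  induction hz using Subgroup.closure_induction with
  | mem z hz =>
    rcases hz with ⟨e, he, rfl⟩ | ⟨i, rfl⟩
    · refine ⟨0, by simp, ?_⟩
      simpa using le_gens (ι := ι) (x := x) (c • t) he
    · exact ⟨t i, rfl, gen_mem (c • t) i⟩
  | one => exact ⟨0, by simp, by simpa using Subgroup.one_mem _⟩
  | mul a b _ _ ha hb =>
    obtain ⟨v, hv, hv'⟩ := ha
    obtain ⟨w, hw, hw'⟩ := hb
    refine ⟨b.1⁻¹ • v + w, ?_, ?_⟩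
    · rw [Prod.snd_mul, Prod.fst_mul, hv, hw, tr_add]
      have : tr ι v * b.1 = b.1 * tr ι (b.1⁻¹ • v) := h.tr_mul _ _
      calc a.1 * tr ι v * (b.1 * tr ι w) = a.1 * (tr ι v * b.1) * tr ι w := by group
        _ = _ := by rw [this]; group
    · have h2 := Subgroup.mul_mem _ hv' hw'
      have : a.1 * tr ι (c • v) * (b.1 * tr ι (c • w)) =
          (a * b).1 * tr ι (c • (b.1⁻¹ • v + w)) := by
        have h3 : tr ι (c • v) * b.1 = b.1 * tr ι (b.1⁻¹ • (c • v)) := h.tr_mul _ _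
        rw [smul_add, tr_add, Prod.fst_mul, ← smul_comm b.1⁻¹ c v]
        calc a.1 * tr ι (c • v) * (b.1 * tr ι (c • w))
            = a.1 * (tr ι (c • v) * b.1) * tr ι (c • w) := by group
          _ = _ := by rw [h3]; group
      rwa [this] at h2
  | inv a _ ha =>
    obtain ⟨v, hv, hv'⟩ := ha
    have key : ∀ u : L, (a.1 * tr ι u)⁻¹ = a.1⁻¹ * tr ι (-(a.1 • u)) := by
      intro u
      rw [mul_inv_rev, ← tr_neg, h.tr_mul, inv_inv, smul_neg]
    refine ⟨-(a.1 • v), ?_, ?_⟩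
    · rw [Prod.snd_inv, Prod.fst_inv, hv, key]
    · have := Subgroup.inv_mem _ hv'
      rw [key, smul_comm] at this
      rw [Prod.fst_inv, smul_neg]
      exact this

/-- differences of translations on the second coordinate -/
def snd0 (ι : Multiplicative L →* Γ) (E : Subgroup Γ) (x : Fin n → Γ) (t : Fin n → L) :
    AddSubgroup L where
  carrier := {b | (1, tr ι b) ∈ pairs ι E x t}
  add_mem' := by
    intro a b ha hb
    have ha : ((1 : Γ), tr ι a) ∈ pairs ι E x t := ha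
    have hb : ((1 : Γ), tr ι b) ∈ pairs ι E x t := hb
    show (1, tr ι (a + b)) ∈ pairs ι E x t
    have := Subgroup.mul_mem _ ha hb
    simpa [tr_add] using this
  zero_mem' := by
    show (1, tr ι 0) ∈ pairs ι E x t
    rw [tr_zero]; exact Subgroup.one_mem _
  neg_mem' := by
    intro a ha
    have ha : ((1 : Γ), tr ι a) ∈ pairs ι E x t := ha
    show (1, tr ι (-a)) ∈ pairs ι E x t
    have := Subgroup.inv_mem _ ha
    simpa using this

omit [DistribMulAction Γ L] h in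
lemma mem_snd0 {b : L} : b ∈ snd0 ι E x t ↔ (1, tr ι b) ∈ pairs ι E x t := Iff.rfl

lemma snd0_stable (ht : gens ι E x t ⊔ ι.range = ⊤) (g : Γ) (b : L) (hb : b ∈ snd0 ι E x t) :
    g • b ∈ snd0 ι E x t := by
  have hn := h.range_normal
  have hg : g ∈ gens ι E x t ⊔ ι.range := by rw [ht]; trivial
  obtain ⟨y, hy, z, hz, rfl⟩ := Subgroup.mem_sup_of_normal_right.1 hg
  obtain ⟨k, hk⟩ := exists_pairs_snd hy
  rw [mem_snd0, mul_smul, h.act_of_mem hz, ← h.conj]
  have := Subgroup.mul_mem _ (Subgroup.mul_mem _ hk hb) (Subgroup.inv_mem _ hk)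
  simpa using this

/-- If `(1, tr b)` is in the pair group for some `b ≠ 0`, then a multiple `M L` is diagonally in the
pair group -/
lemma diag_mem {m : ℕ} (hm : 0 < m) (hD : ∀ v : L, m • v ∈ trSub ι (gens ι E x 0))
    (ht : gens ι E x t ⊔ ι.range = ⊤) (hne : snd0 ι E x t ≠ ⊥) :
    ∃ M : ℕ, 0 < M ∧ ∀ v : L, (tr ι (M • v), tr ι (M • v)) ∈ pairs ι E x t := by
  obtain ⟨M1, hM1, hS⟩ := h.irr _ (fun g b hb => snd0_stable h ht g b hb) hne
  refine ⟨M1 * m, Nat.mul_pos hM1 hm, fun v => ?_⟩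
  obtain ⟨k, hk⟩ := exists_pairs_fst (t := t) (hD v)
  obtain ⟨w, hw, -⟩ := pairs_spec h 0 hk
  simp only at hw
  subst hw
  have h1 := Subgroup.pow_mem _ hk M1
  have h2 : ((1 : Γ), tr ι (M1 • w)) ∈ pairs ι E x t := hS w
  have h3 := Subgroup.mul_mem _ h1 (Subgroup.inv_mem _ h2)
  convert h3 using 1
  rw [← tr_add]
  simp only [Prod.pow_mk, ← tr_nsmul, Prod.inv_mk, inv_one, Prod.mk_mul_mk, mul_one, mul_smul,
    ← tr_neg, ← tr_add]
  congr 2
  rw [smul_add]
  abel

end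

end Pool.B7h79
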